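import Pool.Agent.TSN.Main

/-!
MP_3f72ec_co: adding points can halve the tree stabbing number, and not more: for every `N`, the
supremum of `TREE-STAB(S') / TREE-STAB(S)` over all configurations `S' ⊆ S` with
`TREE-STAB(S) ≥ N` is exactly `2`.
-/

namespace Pool.Agent.Results.MP_3f72ec_co.ExactFactorTwo

/-- The line with equation `a x + b y = c`. -/
def line (a b c : ℝ) : Set (ℝ × ℝ) := {X | a * X.1 + b * X.2 = c}

/-- `L` is a line of the plane. -/
def IsLine (L : Set (ℝ × ℝ)) : Prop := ∃ a b c : ℝ, (a ≠ 0 ∨ b ≠ 0) ∧ L = line a b c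

/-- The line `L` stabs the closed segment `PQ`: they meet in exactly one point, and this point
lies in the relative interior of the segment. -/
def Stabs (L : Set (ℝ × ℝ)) (P Q : ℝ × ℝ) : Prop :=
  ∃ X ∈ openSegment ℝ P Q, L ∩ segment ℝ P Q = {X}

/-- The edge `e` of a graph on the configuration `S`, drawn as a straight segment, is stabbed
by `L`. -/
def StabsEdge (L : Set (ℝ × ℝ)) {S : Finset (ℝ × ℝ)} (e : Sym2 S) : Prop :=
  ∃ P Q : S, e = s(P, Q) ∧ Stabs L (P : ℝ × ℝ) (Q : ℝ × ℝ)

/-- The stabbing number of the geometric graph `G` on `S` is at most `k`: every line stabs at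
most `k` edges. -/
def StabLe {S : Finset (ℝ × ℝ)} (G : SimpleGraph S) (k : ℕ) : Prop :=
  ∀ L, IsLine L → {e ∈ G.edgeSet | StabsEdge L e}.ncard ≤ k

/-- TREE-STAB of the configuration `S`: the minimum stabbing number over all trees whose vertex
set is `S`. -/
noncomputable def treeStab (S : Finset (ℝ × ℝ)) : ℕ :=
  sInf {k | ∃ G : SimpleGraph S, G.IsTree ∧ StabLe G k}

private theorem treeStab_eq (S : Finset (ℝ × ℝ)) : treeStab S = TSN.treeStab S := rfl

theorem result (N : ℕ) :
    IsLUB {r : ℝ | ∃ S S' : Finset (ℝ × ℝ), S'.Nonempty ∧ S' ⊆ S ∧ N ≤ treeStab S ∧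
      r = (treeStab S' : ℝ) / (treeStab S : ℝ)} 2 := by
  constructor
  · rintro r ⟨S, S', hne, hsub, -, rfl⟩
    have h := TSN.treeStab_le_two_mul S S' hsub hne
    rw [← treeStab_eq, ← treeStab_eq] at h
    have h' : (treeStab S' : ℝ) ≤ 2 * treeStab S := by exact_mod_cast h
    exact div_le_of_le_mul₀ (by positivity) (by norm_num) h'
  · intro u hu
    by_contra hlt
    push Not at hlt
    obtain ⟨T, T', hne, hsub, hN, hr⟩ := TSN.main_lower (ε := (2 - u) / 2) (by linarith) (max N 1)
    rw [← treeStab_eq] at hN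
    rw [← treeStab_eq, ← treeStab_eq] at hr
    have h1 : N ≤ treeStab T := le_trans (le_max_left _ _) hN
    have h2 : 1 ≤ treeStab T := le_trans (le_max_right _ _) hN
    have h3 : (0 : ℝ) < treeStab T := by exact_mod_cast h2
    have h4 : (treeStab T' : ℝ) / (treeStab T : ℝ) ≤ u := hu ⟨T, T', hne, hsub, h1, rfl⟩
    rw [div_le_iff₀ h3] at h4
    nlinarith

end Pool.Agent.Results.MP_3f72ec_co.ExactFactorTwo
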